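import Pool.Agent.H291R3.TPDeg

set_option autoImplicit false

/-!
Disproof of Q2: for every prime `p ≥ 5` and every `n ≥ 1` the first accumulation point of the
heights of the algebraic numbers of degree `n` over the totally `p`-adic field is at most
`log p / (p n)`, which is strictly smaller than `p log p / ((p ^ 2 - 1) n)`.
-/

namespace Pool.Agent.Results.MP_f15a68_nt.Q2Disproof

open Polynomial

noncomputable section

/-- The field of totally `p`-adic numbers: generated by the algebraic numbers whose minimal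
polynomial over `ℚ` has as many roots in `ℚ_p` as its degree. -/
def Qtp (p : ℕ) [Fact p.Prime] : IntermediateField ℚ (AlgebraicClosure ℚ) :=
  IntermediateField.adjoin ℚ {x : AlgebraicClosure ℚ |
    ((minpoly ℚ x).map (algebraMap ℚ ℚ_[p])).roots.card = (minpoly ℚ x).natDegree}

/-- The leading coefficient `a₀ > 0` of the primitive integer multiple of the minimal polynomial
of `α`: the least positive integer `d` such that `d` times the minimal polynomial has integer
coefficients. -/
def leadInt (α : AlgebraicClosure ℚ) : ℕ :=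
  sInf {d : ℕ | 0 < d ∧ ∃ P : ℤ[X], P.map (Int.castRingHom ℚ) = C (d : ℚ) * minpoly ℚ α}

/-- The absolute logarithmic Weil height: `(1/deg) log (a₀ ∏ max(1,|conjugates|))`. -/
def weilHeight (α : AlgebraicClosure ℚ) : ℝ :=
  Real.log ((leadInt α : ℝ) * ((minpoly ℚ α).map (algebraMap ℚ ℂ)).mahlerMeasure) /
    ((minpoly ℚ α).natDegree : ℝ)

/-- `L(p,n)`: the infimum of the `c` such that infinitely many algebraic numbers of degree `n`
over the totally `p`-adic field have height less than `c`. -/
def L (p : ℕ) [Fact p.Prime] (n : ℕ) : ℝ :=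
  sInf {c : ℝ | Set.Infinite {α : AlgebraicClosure ℚ |
    (minpoly (Qtp p) α).natDegree = n ∧ weilHeight α < c}}

lemma one_le_mahler (α : AlgebraicClosure ℚ) :
    1 ≤ ((minpoly ℚ α).map (algebraMap ℚ ℂ)).mahlerMeasure := by
  have hm : ((minpoly ℚ α).map (algebraMap ℚ ℂ)).Monic :=
    (minpoly.monic (Algebra.IsIntegral.isIntegral α)).map _
  have := Polynomial.leadingCoeff_le_mahlerMeasure ((minpoly ℚ α).map (algebraMap ℚ ℂ))
  rwa [hm.leadingCoeff, norm_one] at this

lemma weilHeight_nonneg (α : AlgebraicClosure ℚ) : 0 ≤ weilHeight α := by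
  unfold weilHeight
  apply div_nonneg _ (Nat.cast_nonneg _)
  rcases Nat.eq_zero_or_pos (leadInt α) with h | h
  · rw [h]; simp
  · apply Real.log_nonneg
    have h1 : (1 : ℝ) ≤ leadInt α := by exact_mod_cast h
    have h2 := one_le_mahler α
    nlinarith

lemma leadInt_of_integral (α : AlgebraicClosure ℚ) (h : IsIntegral ℤ α) : leadInt α = 1 := by
  have hmem : 1 ∈ {d : ℕ | 0 < d ∧ ∃ P : ℤ[X],
      P.map (Int.castRingHom ℚ) = C (d : ℚ) * minpoly ℚ α} := by
    refine ⟨one_pos, minpoly ℤ α, ?_⟩
    rw [Nat.cast_one, C_1, one_mul]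
    exact (minpoly.isIntegrallyClosed_eq_field_fractions' ℚ h).symm
  have h1 : leadInt α ≤ 1 := Nat.sInf_le hmem
  have h2 : 0 < leadInt α := (Nat.sInf_mem ⟨1, hmem⟩).1
  omega

theorem result :
    ∀ (p : ℕ) [Fact p.Prime] (n : ℕ), 5 ≤ p → 1 ≤ n →
      L p n ≤ Real.log p / (p * n) ∧
      L p n < (p : ℝ) / ((p : ℝ) ^ 2 - 1) * (Real.log p / n) := by
  intro p hp n h5 hn
  have hp5 : (5 : ℝ) ≤ p := by exact_mod_cast h5
  have hn1 : (1 : ℝ) ≤ n := by exact_mod_cast hn
  have hlog : 0 < Real.log p := Real.log_pos (by linarith)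
  have hkey : L p n ≤ Real.log p / (p * n) := by
    apply le_of_forall_gt_imp_ge_of_dense
    intro c hc
    apply csInf_le
    · refine ⟨0, ?_⟩
      intro c' hc'
      by_contra hneg
      push Not at hneg
      apply hc'
      refine Set.finite_empty.subset ?_
      rintro α ⟨-, hα⟩
      exact absurd (lt_of_le_of_lt (weilHeight_nonneg α) hα) (not_lt.2 hneg.le)
    · refine (Pool.Agent.H291R3.infinite_degree (p := p) h5 n hn).mono ?_
      rintro β ⟨h1, h2, h3⟩
      refine ⟨h2, lt_of_le_of_lt ?_ hc⟩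
      unfold weilHeight
      rw [leadInt_of_integral β h1, Nat.cast_one, one_mul]
      exact h3
  refine ⟨hkey, lt_of_le_of_lt hkey ?_⟩
  have h1 : (0 : ℝ) < (p : ℝ) ^ 2 - 1 := by nlinarith
  have hnpos : (0 : ℝ) < n := by linarith
  have hppos : (0 : ℝ) < p := by linarith
  rw [div_mul_div_comm, div_lt_div_iff₀ (by positivity) (by positivity)]
  have h2 : Real.log p * (((p : ℝ) ^ 2 - 1) * n) < (p : ℝ) * Real.log p * (p * n) := by
    have h3 : 0 < Real.log p * n := by positivity
    nlinarith
  exact h2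

end

end Pool.Agent.Results.MP_f15a68_nt.Q2Disproof
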